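import Mathlib
import Pool.Graph.R_seed8.Helper539.Basic
import Pool.Agent.H71.CN.Book2

/-!
# Graphs with a vertex cover of size two versus matchings

For every graph `G` with at most `D + 1` vertices all of whose edges meet two vertices `x, y`
(for instance the book `K₂ ∨ (D - 1) K₁`), `r̂_∞(G) |E(G)| ≤ (7/4 + o(1)) D`.
-/

set_option autoImplicit false

namespace Pool.Agent.Results.MP_1cfd87_co.BooksBelowOne

open Pool.Agent.Helper539 Pool.Agent.H71.CN SimpleGraph Filter Topology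

/-- `IsLimit G ρ`: the number `ρ` is `r̂_∞(G)`, the limit of `r̂(G, tK₂) / (t |E(G)|)`. -/
def IsLimit {V : Type*} (G : SimpleGraph V) (ρ : ℝ) : Prop :=
  Tendsto (fun t : ℕ => (sizeRamsey G (matchingGraph t) : ℝ) / (t * G.edgeSet.ncard))
    atTop (𝓝 ρ)

theorem explicit {D c n t j h : ℕ} (hn : n = 2 * t + j) (hjh : 2 * t ≤ (j + 1) * h)
    (ht : 1 ≤ t) (hD : n + 1 ≤ D + 2 * h) :
    2 * (sizeRamsey (starLeaf D c) (matchingGraph t) : ℝ) + ((n : ℝ) - t) ^ 2 ≤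
      2 * n * (D + 2 * h) := by
  obtain ⟨b, hb⟩ : ∃ b, b + n + 1 = D + 2 * h := ⟨D + 2 * h - n - 1, by omega⟩
  have h1 := sizeRamsey_le (host_arrows (D := D) (c := c) (M := b + t) hn hjh ht hb rfl)
  have h2 := host_edges (n := n) (M := b + t) (b := b) (t := t) rfl (by omega)
  have h1' : (sizeRamsey (starLeaf D c) (matchingGraph t) : ℝ) ≤
      ((bookHost n (b + t) b t).edgeSet.ncard : ℝ) := by exact_mod_cast h1
  have h2' : 2 * ((bookHost n (b + t) b t).edgeSet.ncard : ℝ) + t * (t + 1) + n ≤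
      n * n + 2 * n * b + 2 * n * t := by exact_mod_cast h2
  have hb' : (b : ℝ) + n + 1 = D + 2 * h := by exact_mod_cast hb
  have ht0 : (0 : ℝ) ≤ t := Nat.cast_nonneg _
  have hn0 : (0 : ℝ) ≤ n := Nat.cast_nonneg _
  have e : 2 * (n : ℝ) * (D + 2 * h) = 2 * n * b + 2 * n * n + 2 * n := by
    rw [← hb']
    ring
  rw [e]
  nlinarith

theorem book_adj {D : ℕ} (a b : Fin (D + 1)) : (starLeaf D (D - 1)).Adj a b ↔
    a ≠ b ∧ (a.val = 0 ∨ a.val = 1 ∨ b.val = 0 ∨ b.val = 1) := by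
  rw [starLeaf, SimpleGraph.fromRel_adj]
  have ha := a.isLt
  have hb := b.isLt
  constructor
  · rintro ⟨h1, h2⟩
    exact ⟨h1, by omega⟩
  · rintro ⟨h1, h2⟩
    have h3 : a.val ≠ b.val := fun h => h1 (Fin.ext h)
    exact ⟨h1, by omega⟩

theorem isContained_book {V : Type} [Fintype V] (G : SimpleGraph V) {x y : V} (hne : x ≠ y)
    (hE : ∀ a b, G.Adj a b → a = x ∨ a = y ∨ b = x ∨ b = y) {D : ℕ}
    (hV : Fintype.card V ≤ D + 1) : G ⊑ starLeaf D (D - 1) := by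
  classical
  have hcard : 1 < Fintype.card V := Fintype.one_lt_card_iff.2 ⟨x, y, hne⟩
  let z0 : Fin (D + 1) := ⟨0, Nat.succ_pos D⟩
  let z1 : Fin (D + 1) := ⟨1, by omega⟩
  have hz : z1 ≠ z0 := by
    intro h
    have := congrArg Fin.val h
    simp [z0, z1] at this
  let e : V → Fin (D + 1) := fun v => Fin.castLE hV (Fintype.equivFin V v)
  have he : Function.Injective e := fun a b h =>
    (Fintype.equivFin V).injective (Fin.castLE_injective hV h)
  let σ : Equiv.Perm (Fin (D + 1)) := Equiv.swap (e x) z0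
  have hσx : σ (e x) = z0 := Equiv.swap_apply_left _ _
  have hq : σ (e y) ≠ z0 := by
    intro h
    rw [← hσx] at h
    exact hne (he (σ.injective h)).symm
  let τ : Equiv.Perm (Fin (D + 1)) := Equiv.swap (σ (e y)) z1
  have hτy : τ (σ (e y)) = z1 := Equiv.swap_apply_left _ _
  have hτx : τ (σ (e x)) = z0 := by
    rw [hσx]
    exact Equiv.swap_apply_of_ne_of_ne hq.symm hz.symm
  have hinj : Function.Injective (fun v => τ (σ (e v))) :=
    fun a b h => he (σ.injective (τ.injective h))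
  refine ⟨⟨⟨fun v => τ (σ (e v)), ?_⟩, hinj⟩⟩
  intro a b hab
  rw [book_adj]
  refine ⟨fun h => hab.ne (hinj h), ?_⟩
  rcases hE a b hab with h | h | h | h
  · left
    rw [h, hτx]
  · right; left
    rw [h, hτy]
  · right; right; left
    rw [h, hτx]
  · right; right; right
    rw [h, hτy]

theorem sizeRamsey_mono {V W : Type} [Fintype V] [Fintype W] {G : SimpleGraph V}
    {G' : SimpleGraph W} (h : G ⊑ G') (t : ℕ) :
    sizeRamsey G (matchingGraph t) ≤ sizeRamsey G' (matchingGraph t) := by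
  obtain ⟨N, F, hF, hF'⟩ := exists_sizeRamsey G' t
  rw [← hF]
  apply sizeRamsey_le
  intro R hR
  rcases hF' R hR with h1 | h1
  · exact Or.inl (h.trans h1)
  · exact Or.inr h1

theorem le_ratio {V : Type} [Fintype V] (G : SimpleGraph V) {ρ : ℝ} (h : IsLimit G ρ) {t : ℕ}
    (ht : 1 ≤ t) : ρ * G.edgeSet.ncard * t ≤ sizeRamsey G (matchingGraph t) := by
  obtain ⟨ρ', h1, -, h3⟩ := exists_limit G
  have h4 : ρ = ρ' := tendsto_nhds_unique h h1
  have h5 := h3 t (by omega)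
  rw [← h4] at h5
  rcases Nat.eq_zero_or_pos G.edgeSet.ncard with h0 | h0
  · rw [h0]
    simp
  · have ht0 : (0 : ℝ) < t := by exact_mod_cast ht
    have h6 : (0 : ℝ) < G.edgeSet.ncard := by exact_mod_cast h0
    rw [le_div_iff₀ (by positivity)] at h5
    linarith

theorem isLimit_nonneg {V : Type} [Fintype V] (G : SimpleGraph V) {ρ : ℝ} (h : IsLimit G ρ) :
    0 ≤ ρ := ge_of_tendsto' h (fun t => by positivity)

theorem finite_bound {D c k : ℕ} (hk : 1 ≤ k) (hD : 2 * (k * k) + 1 ≤ D) {ρ : ℝ}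
    {V : Type} [Fintype V] (G : SimpleGraph V) (hG : ∀ t : ℕ,
      sizeRamsey G (matchingGraph t) ≤ sizeRamsey (starLeaf D c) (matchingGraph t))
    (h : IsLimit G ρ) :
    ρ * G.edgeSet.ncard * ((D : ℝ) - 1) + ((D : ℝ) - 1) ^ 2 / 4 ≤
      2 * ((D : ℝ) + 2 * k) * (D + D / k + 2) := by
  have hk2 : 1 ≤ k * k := Nat.mul_pos hk hk
  have ht : 1 ≤ D / 2 := by omega
  have htk : k * k ≤ D / 2 := by omega
  have hq : k ≤ (D / 2) / k := (Nat.le_div_iff_mul_le hk).2 htk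
  have hlt : D / 2 < k * ((D / 2) / k + 1) := Nat.lt_mul_div_succ (D / 2) hk
  have hjh : 2 * (D / 2) ≤ ((2 * k - 1) + 1) * ((D / 2) / k + 1) := by
    have e1 : (2 * k - 1) + 1 = 2 * k := by omega
    rw [e1, mul_assoc]
    omega
  have h1 := explicit (D := D) (c := c) (n := 2 * (D / 2) + (2 * k - 1)) (t := D / 2)
    (j := 2 * k - 1) (h := (D / 2) / k + 1) rfl hjh ht (by omega)
  have h2 := le_ratio G h ht
  have h2' : (sizeRamsey G (matchingGraph (D / 2)) : ℝ) ≤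
      sizeRamsey (starLeaf D c) (matchingGraph (D / 2)) := by exact_mod_cast hG (D / 2)
  have hρ := isLimit_nonneg G h
  have hE : (0 : ℝ) ≤ ρ * G.edgeSet.ncard := mul_nonneg hρ (Nat.cast_nonneg _)
  have hk0 : (0 : ℝ) < k := by exact_mod_cast hk
  have hD1 : (1 : ℝ) ≤ D := by
    have : 1 ≤ D := by omega
    exact_mod_cast this
  have t1 : (D : ℝ) - 1 ≤ 2 * ((D / 2 : ℕ) : ℝ) := by
    have : D ≤ 2 * (D / 2) + 1 := by omega
    have : (D : ℝ) ≤ 2 * ((D / 2 : ℕ) : ℝ) + 1 := by exact_mod_cast this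
    linarith
  have t2 : 2 * ((D / 2 : ℕ) : ℝ) ≤ D := by
    have : 2 * (D / 2) ≤ D := by omega
    exact_mod_cast this
  have t3 : (((D / 2) / k : ℕ) : ℝ) ≤ ((D / 2 : ℕ) : ℝ) / k := Nat.cast_div_le
  have t4 : ((D / 2 : ℕ) : ℝ) / k ≤ ((D : ℝ) / k) / 2 := by
    rw [div_div, mul_comm (k : ℝ) 2, ← div_div]
    exact div_le_div_of_nonneg_right (by linarith) hk0.le
  set n : ℕ := 2 * (D / 2) + (2 * k - 1) with hn
  have n1 : (n : ℝ) ≤ (D : ℝ) + 2 * k := by
    have : n ≤ D + 2 * k := by omega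
    exact_mod_cast this
  have n2 : ((D : ℝ) - 1) / 2 ≤ (n : ℝ) - ((D / 2 : ℕ) : ℝ) := by
    have : 2 * (D / 2) ≤ n := by omega
    have : 2 * ((D / 2 : ℕ) : ℝ) ≤ n := by exact_mod_cast this
    linarith
  have n3 : (((D : ℝ) - 1) / 2) ^ 2 ≤ ((n : ℝ) - ((D / 2 : ℕ) : ℝ)) ^ 2 :=
    pow_le_pow_left₀ (by linarith) n2 2
  have n4 : 2 * (n : ℝ) * (D + 2 * (((D / 2) / k + 1 : ℕ) : ℝ)) ≤
      2 * ((D : ℝ) + 2 * k) * (D + D / k + 2) := by
    apply mul_le_mul
    · linarith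
    · push_cast
      linarith
    · positivity
    · positivity
  have r1 : ρ * G.edgeSet.ncard * ((D : ℝ) - 1) ≤
      ρ * G.edgeSet.ncard * (2 * ((D / 2 : ℕ) : ℝ)) :=
    mul_le_mul_of_nonneg_left t1 hE
  have e2 : (((D : ℝ) - 1) / 2) ^ 2 = ((D : ℝ) - 1) ^ 2 / 4 := by ring
  rw [e2] at n3
  linarith

theorem asymptotic (ε : ℝ) (hε : 0 < ε) : ∃ D₀ : ℕ, ∀ D : ℕ, D₀ ≤ D →
    ∀ (V : Type) [Fintype V] (G : SimpleGraph V) (x y : V), x ≠ y →
    (∀ a b, G.Adj a b → a = x ∨ a = y ∨ b = x ∨ b = y) → Fintype.card V ≤ D + 1 → ∀ ρ : ℝ,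
    IsLimit G ρ → ρ * G.edgeSet.ncard ≤ (7 / 4 + ε) * D := by
  obtain ⟨k, hk⟩ := exists_nat_ge (4 / ε + 1)
  have hk1 : (1 : ℝ) ≤ k := by
    have : 0 < 4 / ε := by positivity
    linarith
  have hk1' : 1 ≤ k := by exact_mod_cast hk1
  have hk0 : (0 : ℝ) < k := by linarith
  have hke : 2 / (k : ℝ) ≤ ε / 2 := by
    rw [div_le_iff₀ hk0]
    have h1 : 4 / ε ≤ k := by linarith
    rw [div_le_iff₀ hε] at h1
    linarith
  obtain ⟨m, hm⟩ := exists_nat_ge (2 * (11 + ε + 12 * k) / ε)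
  refine ⟨m + 2 * (k * k) + 2, fun D hD V _ G x y hxy hE hV ρ hρ => ?_⟩
  have h1 := finite_bound (c := D - 1) hk1' (by omega : 2 * (k * k) + 1 ≤ D) G
    (fun t => sizeRamsey_mono (isContained_book G hxy hE hV) t) hρ
  have hDm : (m : ℝ) ≤ D := by
    have : m ≤ D := by omega
    exact_mod_cast this
  have hD2 : (2 : ℝ) ≤ D := by
    have : 2 ≤ D := by omega
    exact_mod_cast this
  have h2 : 2 * (11 + ε + 12 * k) ≤ ε * D := by
    have h3 : 2 * (11 + ε + 12 * k) / ε ≤ D := hm.trans hDm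
    rw [div_le_iff₀ hε] at h3
    linarith
  have h3 : (11 + ε + 12 * k) * D ≤ ε / 2 * D ^ 2 := by
    have h4 := mul_le_mul_of_nonneg_right h2 (by linarith : (0 : ℝ) ≤ D)
    nlinarith
  have h4 : 2 / (k : ℝ) * D ^ 2 ≤ ε / 2 * D ^ 2 :=
    mul_le_mul_of_nonneg_right hke (by positivity)
  have e1 : 2 * ((D : ℝ) + 2 * k) * (D + D / k + 2) =
      2 * D ^ 2 + 2 / k * D ^ 2 + 4 * D + 4 * k * D + 4 * D + 8 * k := by
    field_simp
    ring
  rw [e1] at h1
  have h5 : (8 : ℝ) * k ≤ 8 * k * D := by nlinarith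
  have h6 : ρ * G.edgeSet.ncard * ((D : ℝ) - 1) ≤
      ((7 / 4 + ε) * D) * ((D : ℝ) - 1) := by
    nlinarith
  exact le_of_mul_le_mul_right h6 (by linarith)

theorem edges_ge {D c : ℕ} (h : c + 1 ≤ D) : D + c ≤ (starLeaf D c).edgeSet.ncard := by
  let f : Fin D ⊕ Fin c → Sym2 (Fin (D + 1)) := fun x =>
    match x with
    | Sum.inl i => s(⟨0, Nat.succ_pos D⟩, ⟨i.val + 1, by omega⟩)
    | Sum.inr i => s(⟨1, by omega⟩, ⟨i.val + 2, by omega⟩)
  have hf : Function.Injective f := by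
    rintro (i | i) (j | j) h
    · simp only [f, Sym2.eq_iff, Fin.ext_iff] at h
      have : i.val = j.val := by omega
      rw [Fin.ext this]
    · simp only [f, Sym2.eq_iff, Fin.ext_iff] at h
      omega
    · simp only [f, Sym2.eq_iff, Fin.ext_iff] at h
      omega
    · simp only [f, Sym2.eq_iff, Fin.ext_iff] at h
      have : i.val = j.val := by omega
      rw [Fin.ext this]
  have h1 : Set.range f ⊆ (starLeaf D c).edgeSet := by
    rintro _ ⟨i | i, rfl⟩
    · simp only [f, SimpleGraph.mem_edgeSet, starLeaf, SimpleGraph.fromRel_adj]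
      refine ⟨fun h => ?_, Or.inl (Or.inl trivial)⟩
      have := congrArg Fin.val h
      simp only at this
      omega
    · simp only [f, SimpleGraph.mem_edgeSet, starLeaf, SimpleGraph.fromRel_adj]
      refine ⟨fun h => ?_, Or.inl (Or.inr ⟨trivial, by omega⟩)⟩
      have := congrArg Fin.val h
      simp only at this
      omega
  have h2 := Set.ncard_le_ncard h1 (Set.toFinite _)
  rwa [← Set.image_univ, Set.ncard_image_of_injective _ hf, Set.ncard_univ,
    Nat.card_eq_fintype_card, Fintype.card_sum, Fintype.card_fin, Fintype.card_fin] at h2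

theorem result :
    (∀ (V : Type) [Fintype V] (G : SimpleGraph V) (x y : V), x ≠ y →
      (∀ a b, G.Adj a b → a = x ∨ a = y ∨ b = x ∨ b = y) →
      ∀ D n t j h : ℕ, Fintype.card V ≤ D + 1 → n = 2 * t + j → 2 * t ≤ (j + 1) * h → 1 ≤ t →
      n + 1 ≤ D + 2 * h →
      2 * (sizeRamsey G (matchingGraph t) : ℝ) + ((n : ℝ) - t) ^ 2 ≤ 2 * n * (D + 2 * h)) ∧
    (∀ ε : ℝ, 0 < ε → ∃ D₀ : ℕ, ∀ D : ℕ, D₀ ≤ D →
      ∀ (V : Type) [Fintype V] (G : SimpleGraph V) (x y : V), x ≠ y →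
      (∀ a b, G.Adj a b → a = x ∨ a = y ∨ b = x ∨ b = y) → Fintype.card V ≤ D + 1 →
      ∀ ρ : ℝ, IsLimit G ρ → ρ * G.edgeSet.ncard ≤ (7 / 4 + ε) * D) ∧
    (∃ D₀ : ℕ, ∀ D c : ℕ, D₀ ≤ D → 4 * D ≤ 5 * c → c + 1 ≤ D →
      ∃ ρ : ℝ, IsLimit (starLeaf D c) ρ ∧ ρ ≤ 49 / 50) := by
  refine ⟨?_, asymptotic, ?_⟩
  · intro V _ G x y hxy hE D n t j h hV h1 h2 h3 h4
    have h5 := explicit (D := D) (c := D - 1) h1 h2 h3 h4
    have h6 : (sizeRamsey G (matchingGraph t) : ℝ) ≤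
        sizeRamsey (starLeaf D (D - 1)) (matchingGraph t) := by
      exact_mod_cast sizeRamsey_mono (isContained_book G hxy hE hV) t
    linarith
  · obtain ⟨D₀, h⟩ := asymptotic (1 / 100) (by norm_num)
    refine ⟨D₀ + 1, fun D c hD hc hcD => ?_⟩
    obtain ⟨ρ, h1, -, -⟩ := exists_limit (starLeaf D c)
    refine ⟨ρ, h1, ?_⟩
    have h2 := h D (by omega) (Fin (D + 1)) (starLeaf D c) ⟨0, by omega⟩ ⟨1, by omega⟩
      (by
        intro h
        have := congrArg Fin.val h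
        simp at this)
      (by
        intro a b hab
        rw [starLeaf, SimpleGraph.fromRel_adj] at hab
        simp only [Fin.ext_iff]
        omega)
      (by rw [Fintype.card_fin]) ρ h1
    have h3 : (D : ℝ) + c ≤ (starLeaf D c).edgeSet.ncard := by exact_mod_cast edges_ge hcD
    have h4 := isLimit_nonneg (starLeaf D c) h1
    have h5 : (4 : ℝ) * D ≤ 5 * c := by exact_mod_cast hc
    have h6 : (1 : ℝ) ≤ D := by
      have : 1 ≤ D := by omega
      exact_mod_cast this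
    have h7 : ρ * (9 / 5 * D) ≤ (7 / 4 + 1 / 100) * D := by
      refine le_trans ?_ h2
      apply mul_le_mul_of_nonneg_left _ h4
      linarith
    by_contra hcon
    push Not at hcon
    have h8 : 49 / 50 * (9 / 5 * (D : ℝ)) < ρ * (9 / 5 * D) :=
      mul_lt_mul_of_pos_right hcon (by positivity)
    linarith

end Pool.Agent.Results.MP_1cfd87_co.BooksBelowOne
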