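import Pool.Agent.H79.SR.Multi
import Pool.Agent.H79.SR.Multi3
import Pool.Agent.H79.SR.Multi4
import Pool.Agent.H79.SR.Cor3
import Pool.Agent.H79.SR.Cor4

/-!
# Size Ramsey numbers of a graph versus large matchings: an upper bound and necessary conditions

Question 2 asks for all sequences `(G n)` for which the limit ratios `ρ n` of
`r̂(G n, t K₂) / (t |E(G n)|)` tend to `1`.  For all sequences of graphs without isolated vertices:

* If `|E(G n)| → ∞`, then for every `δ > 0` there is `ε > 0` such that for all large `n` and every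
  proper colouring of the vertices of degree `> ε |E(G n)|`, `ρ n` is at most
  `(∑ i, (N i + l i)) / |E(G n)| + δ`, where `N i` is the number of neighbours of degree `≠ 1` of
  the vertices of degree `> ε |E(G n)|` of colour `i`, and each of these vertices has at most `l i`
  neighbours of degree `1`.
* If `ρ n → 1`, then for every `δ > 0` there is `ε > 0` such that for all large `n` the vertices
  of degree `> ε |E(G n)|` (at most `2 / ε` many) have total degree at least
  `(1 - δ) |E(G n)|`.
* If `|E(G n)| → ∞` and `ρ n → 1`, then any two non-adjacent vertices of `G n` have only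
  `o(|E(G n)|)` common neighbours, and one of them has only `o(|E(G n)|)` neighbours of degree `1`.
-/

namespace Pool.Agent.Results.MP_1cfd87_co.ColourLeafBound

open SimpleGraph Filter Topology Pool.Agent.Helper539 Pool.Agent.H79.SR

universe u

theorem result (V : ℕ → Type u) [∀ n, Fintype (V n)] (G : ∀ n, SimpleGraph (V n))
    [∀ n, DecidableRel (G n).Adj]
    (hedge : ∀ n, (G n).edgeSet.Nonempty)
    (hiso : ∀ n v, ∃ w, (G n).Adj v w) :
    ∃ ρ : ℕ → ℝ,
      (∀ n, Tendsto (fun t : ℕ =>
        (sizeRamsey (G n) (matchingGraph t) : ℝ) / (t * (G n).edgeSet.ncard))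
        atTop (𝓝 (ρ n))) ∧
      (Tendsto (fun n => (G n).edgeSet.ncard) atTop atTop →
        ∀ δ : ℝ, 0 < δ → ∃ ε : ℝ, 0 < ε ∧ ∀ᶠ n in atTop,
        ∀ (k : ℕ) (κ : V n → Fin k) (l : Fin k → ℕ),
        (∀ u v, ε * (G n).edgeSet.ncard < ((G n).degree u : ℝ) →
          ε * (G n).edgeSet.ncard < ((G n).degree v : ℝ) → (G n).Adj u v → κ u ≠ κ v) →
        (∀ u, ε * (G n).edgeSet.ncard < ((G n).degree u : ℝ) →
          {x | (G n).degree x = 1 ∧ (G n).Adj u x}.ncard ≤ l (κ u)) →
        ρ n ≤ ((∑ i, ({x | (G n).degree x ≠ 1 ∧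
          ∃ u, ε * (G n).edgeSet.ncard < ((G n).degree u : ℝ) ∧ κ u = i ∧
          (G n).Adj u x}.ncard : ℝ)) + ∑ i, (l i : ℝ)) / (G n).edgeSet.ncard + δ) ∧
      (Tendsto ρ atTop (𝓝 1) → ∀ δ : ℝ, 0 < δ → ∃ ε : ℝ, 0 < ε ∧ ∀ᶠ n in atTop,
        ((Finset.univ.filter (fun v => ε * (G n).edgeSet.ncard < ((G n).degree v : ℝ))).card : ℝ)
          ≤ 2 / ε ∧
        (1 - δ) * (G n).edgeSet.ncard ≤ ∑ v ∈ Finset.univ.filter
          (fun v => ε * (G n).edgeSet.ncard < ((G n).degree v : ℝ)), ((G n).degree v : ℝ)) ∧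
      (Tendsto (fun n => (G n).edgeSet.ncard) atTop atTop → Tendsto ρ atTop (𝓝 1) →
        ∀ δ : ℝ, 0 < δ → ∀ᶠ n in atTop, ∀ u v, u ≠ v → ¬ (G n).Adj u v →
          (((G n).neighborSet u ∩ (G n).neighborSet v).ncard : ℝ) ≤
            δ * (G n).edgeSet.ncard ∧
          ((min {x | (G n).degree x = 1 ∧ (G n).Adj u x}.ncard
            {x | (G n).degree x = 1 ∧ (G n).Adj v x}.ncard : ℕ) : ℝ) ≤
            δ * (G n).edgeSet.ncard) := by
  classical
  choose ρ hρ hρ0 hρle using fun n => exists_limit (G n)
  have hm : ∀ n, (0 : ℝ) < (G n).edgeSet.ncard := by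
    intro n
    have : 0 < (G n).edgeSet.ncard := (Set.ncard_pos (Set.toFinite _)).2 (hedge n)
    exact_mod_cast this
  have hup : ∀ n, ρ n ≤ 1 := by
    intro n
    refine (hρle n 1 one_ne_zero).trans ?_
    have h1 := sizeRamsey_le (arrows_one (G n))
    have h2 : (sizeRamsey (G n) (matchingGraph 1) : ℝ) ≤ (G n).edgeSet.ncard := by
      exact_mod_cast h1
    rw [div_le_iff₀ (by have := hm n; push_cast; positivity)]
    push_cast
    linarith
  have hbound : ∀ n (c : ℝ) (t : ℕ), 1 ≤ t →
      (sizeRamsey (G n) (matchingGraph t) : ℝ) ≤ t * (c * (G n).edgeSet.ncard) → ρ n ≤ c := by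
    intro n c t ht h
    refine (hρle n t (by omega)).trans ?_
    have ht0 : (0 : ℝ) < t := by exact_mod_cast ht
    rw [div_le_iff₀ (by have := hm n; positivity)]
    calc (sizeRamsey (G n) (matchingGraph t) : ℝ) ≤ t * (c * (G n).edgeSet.ncard) := h
      _ = c * (t * (G n).edgeSet.ncard) := by ring
  have hall : ∀ δ : ℝ, 0 < δ → ∃ ε : ℝ, 0 < ε ∧ ∀ n, ρ n ≤
        (∑ v ∈ Finset.univ.filter
          (fun v => ε * (G n).edgeSet.ncard < ((G n).degree v : ℝ)), ((G n).degree v : ℝ)) /
            (G n).edgeSet.ncard + δ := by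
    intro δ hδ
    obtain ⟨ε, hε, h⟩ := upper_all.{u} δ hδ
    refine ⟨ε, hε, fun n => ?_⟩
    obtain ⟨t, ht1, ht⟩ := h (V n) (G n) (hedge n) (hiso n)
    refine hbound n _ t ht1 (ht.trans (le_of_eq ?_))
    have := (hm n).ne'
    field_simp
  -- the number of vertices of large degree
  have hcard : ∀ n (ε : ℝ), 0 < ε → ((Finset.univ.filter
      (fun v => ε * (G n).edgeSet.ncard < ((G n).degree v : ℝ))).card : ℝ) ≤ 2 / ε := by
    intro n ε hε
    have h2 : ((Finset.univ.filter
        (fun v => ε * (G n).edgeSet.ncard < ((G n).degree v : ℝ))).card : ℝ) *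
        (ε * (G n).edgeSet.ncard) ≤ 2 * (G n).edgeSet.ncard := by
      calc ((Finset.univ.filter
          (fun v => ε * (G n).edgeSet.ncard < ((G n).degree v : ℝ))).card : ℝ) *
          (ε * (G n).edgeSet.ncard)
          ≤ ∑ v ∈ Finset.univ.filter
            (fun v => ε * (G n).edgeSet.ncard < ((G n).degree v : ℝ)), ((G n).degree v : ℝ) := by
            rw [← nsmul_eq_mul]
            apply Finset.card_nsmul_le_sum
            intro v hv
            rw [Finset.mem_filter] at hv
            exact hv.2.le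
        _ ≤ ∑ v, ((G n).degree v : ℝ) :=
            Finset.sum_le_sum_of_subset_of_nonneg (Finset.subset_univ _)
              (fun _ _ _ => Nat.cast_nonneg _)
        _ = 2 * (G n).edgeSet.ncard := by
            have h3 := (G n).sum_degrees_eq_twice_card_edges
            have h4 : (G n).edgeFinset.card = (G n).edgeSet.ncard := by
              rw [← Set.ncard_coe_finset]
              simp
            rw [h4] at h3
            exact_mod_cast h3
    rw [le_div_iff₀ hε]
    have h3 : (((Finset.univ.filter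
        (fun v => ε * (G n).edgeSet.ncard < ((G n).degree v : ℝ))).card : ℝ) * ε) *
        (G n).edgeSet.ncard ≤ 2 * (G n).edgeSet.ncard := by linarith
    exact le_of_mul_le_mul_right h3 (hm n)
  -- the bound for colourings, for every small `ε`
  have hcolour : Tendsto (fun n => (G n).edgeSet.ncard) atTop atTop →
      ∀ δ : ℝ, 0 < δ → ∃ ε₀ : ℝ, 0 < ε₀ ∧ ∀ ε : ℝ, 0 < ε → ε ≤ ε₀ →
        ∀ᶠ n in atTop, ∀ (k : ℕ) (κ : V n → Fin k),
        (∀ u v, ε * (G n).edgeSet.ncard < ((G n).degree u : ℝ) →
          ε * (G n).edgeSet.ncard < ((G n).degree v : ℝ) → (G n).Adj u v → κ u ≠ κ v) →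
        ρ n ≤ (∑ i, ({x | ∃ u, ε * (G n).edgeSet.ncard < ((G n).degree u : ℝ) ∧ κ u = i ∧
          (G n).Adj u x}.ncard : ℝ)) / (G n).edgeSet.ncard + δ := by
    intro hinf δ hδ
    obtain ⟨ε₀, hε₀, M, h⟩ := upper_col.{u} δ hδ
    refine ⟨ε₀, hε₀, fun ε hε hεε => ?_⟩
    filter_upwards [hinf.eventually_ge_atTop M] with n hn k κ hκ
    have hmono : ∀ x : V n, ε₀ * (G n).edgeSet.ncard < ((G n).degree x : ℝ) →
        ε * (G n).edgeSet.ncard < ((G n).degree x : ℝ) := fun x hx =>
      (mul_le_mul_of_nonneg_right hεε (hm n).le).trans_lt hx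
    obtain ⟨t, ht1, ht⟩ := h (V n) (G n) hn (hedge n) (hiso n) k κ
      (fun i => {x | ∃ u, ε * (G n).edgeSet.ncard < ((G n).degree u : ℝ) ∧ κ u = i ∧
          (G n).Adj u x}.ncard)
      (fun u v hu hv huv => hκ u v (hmono u hu) (hmono v hv) huv)
      (by
        intro i B hB
        rw [← Set.ncard_coe_finset]
        apply Set.ncard_le_ncard _ (Set.toFinite _)
        intro x hx
        rw [Finset.mem_coe, Finset.mem_filter] at hx
        obtain ⟨-, u, hu, hui, hux⟩ := hx
        exact ⟨u, hmono u (hB u hu), hui, hux⟩)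
    refine hbound n _ t ht1 (ht.trans (le_of_eq ?_))
    have := (hm n).ne'
    field_simp
  have hcolour4 : Tendsto (fun n => (G n).edgeSet.ncard) atTop atTop →
      ∀ δ : ℝ, 0 < δ → ∃ ε₀ : ℝ, 0 < ε₀ ∧ ∀ ε : ℝ, 0 < ε → ε ≤ ε₀ →
        ∀ᶠ n in atTop, ∀ (k : ℕ) (κ : V n → Fin k) (l : Fin k → ℕ),
        (∀ u v, ε * (G n).edgeSet.ncard < ((G n).degree u : ℝ) →
          ε * (G n).edgeSet.ncard < ((G n).degree v : ℝ) → (G n).Adj u v → κ u ≠ κ v) →
        (∀ u, ε * (G n).edgeSet.ncard < ((G n).degree u : ℝ) →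
          {x | (G n).degree x = 1 ∧ (G n).Adj u x}.ncard ≤ l (κ u)) →
        ρ n ≤ ((∑ i, ({x | (G n).degree x ≠ 1 ∧
          ∃ u, ε * (G n).edgeSet.ncard < ((G n).degree u : ℝ) ∧ κ u = i ∧
          (G n).Adj u x}.ncard : ℝ)) + ∑ i, (l i : ℝ)) / (G n).edgeSet.ncard + δ := by
    intro hinf δ hδ
    obtain ⟨ε₀, hε₀, M, h⟩ := upper_col4.{u} δ hδ
    refine ⟨ε₀, hε₀, fun ε hε hεε => ?_⟩
    filter_upwards [hinf.eventually_ge_atTop M] with n hn k κ l hκ hl
    have hmono : ∀ x : V n, ε₀ * (G n).edgeSet.ncard < ((G n).degree x : ℝ) →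
        ε * (G n).edgeSet.ncard < ((G n).degree x : ℝ) := fun x hx =>
      (mul_le_mul_of_nonneg_right hεε (hm n).le).trans_lt hx
    by_cases hls : ∑ i, l i ≤ 2 * (G n).edgeSet.ncard
    · obtain ⟨t, ht1, ht⟩ := h (V n) (G n) hn (hedge n) (hiso n) k κ
        (fun i => {x | (G n).degree x ≠ 1 ∧
          ∃ u, ε * (G n).edgeSet.ncard < ((G n).degree u : ℝ) ∧ κ u = i ∧
          (G n).Adj u x}.ncard) l (fun u v hu hv huv => hκ u v (hmono u hu) (hmono v hv) huv)
        (by
          intro i B hB
          rw [← Set.ncard_coe_finset]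
          apply Set.ncard_le_ncard _ (Set.toFinite _)
          intro x hx
          rw [Finset.mem_coe, Finset.mem_filter] at hx
          obtain ⟨-, hx1, u, hu, hui, hux⟩ := hx
          exact ⟨hx1, u, hmono u (hB u hu), hui, hux⟩)
        (by
          intro u hu
          refine le_trans (le_of_eq ?_) (hl u (hmono u hu))
          rw [← Set.ncard_coe_finset]
          congr 1
          ext x
          simp)
        hls
      refine hbound n _ t ht1 (ht.trans (le_of_eq ?_))
      have := (hm n).ne'
      field_simp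
    · push Not at hls
      have h2 : (2 : ℝ) * (G n).edgeSet.ncard < ∑ i, (l i : ℝ) := by exact_mod_cast hls
      have h3 : (0 : ℝ) ≤ ∑ i, ({x | (G n).degree x ≠ 1 ∧
          ∃ u, ε * (G n).edgeSet.ncard < ((G n).degree u : ℝ) ∧ κ u = i ∧
          (G n).Adj u x}.ncard : ℝ) := Finset.sum_nonneg (fun _ _ => Nat.cast_nonneg _)
      have h4 : (1 : ℝ) ≤ ((∑ i, ({x | (G n).degree x ≠ 1 ∧
          ∃ u, ε * (G n).edgeSet.ncard < ((G n).degree u : ℝ) ∧ κ u = i ∧
          (G n).Adj u x}.ncard : ℝ)) + ∑ i, (l i : ℝ)) / (G n).edgeSet.ncard := by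
        rw [le_div_iff₀ (hm n)]
        have := hm n
        linarith
      have h5 := hup n
      linarith
  refine ⟨ρ, hρ, ?_, ?_, ?_⟩
  · intro hinf δ hδ
    obtain ⟨ε, hε, h⟩ := hcolour4 hinf δ hδ
    exact ⟨ε, hε, h ε hε le_rfl⟩
  · intro h1 δ hδ
    obtain ⟨ε, hε, h⟩ := hall (δ / 2) (half_pos hδ)
    refine ⟨ε, hε, ?_⟩
    filter_upwards [(tendsto_order.1 h1).1 (1 - δ / 2) (by linarith)] with n hn
    refine ⟨hcard n ε hε, ?_⟩
    have h2 := h n
    have h3 : 1 - δ ≤ (∑ v ∈ Finset.univ.filter
          (fun v => ε * (G n).edgeSet.ncard < ((G n).degree v : ℝ)), ((G n).degree v : ℝ)) /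
            (G n).edgeSet.ncard := by linarith
    rwa [le_div_iff₀ (hm n)] at h3
  · intro hinf h1 δ hδ
    have hcn : ∀ᶠ n in atTop, ∀ u v, u ≠ v → ¬ (G n).Adj u v →
        (((G n).neighborSet u ∩ (G n).neighborSet v).ncard : ℝ) ≤
          δ * (G n).edgeSet.ncard := by
      obtain ⟨ε₀, hε₀, h⟩ := hcolour hinf (δ / 4) (by positivity)
      obtain ⟨ε, hε, hεε, hεδ⟩ : ∃ ε : ℝ, 0 < ε ∧ ε ≤ ε₀ ∧ ε ≤ δ :=
        ⟨min ε₀ δ, lt_min hε₀ hδ, min_le_left _ _, min_le_right _ _⟩
      obtain ⟨M, hM⟩ := exists_nat_gt (4 * (2 / ε * (2 / ε)) / δ)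
      filter_upwards [h ε hε hεε, (tendsto_order.1 h1).1 (1 - δ / 4) (by linarith),
        hinf.eventually_ge_atTop M] with n hn hn1 hnM u v huv hadj
      by_contra hcon
      push Not at hcon
      have hinter : ((G n).neighborSet u ∩ (G n).neighborSet v).ncard =
          ((G n).neighborFinset v ∩ (G n).neighborFinset u).card := by
        rw [← Set.ncard_coe_finset]
        congr 1
        ext x
        simp [and_comm]
      rw [hinter] at hcon
      have hdu : ε * (G n).edgeSet.ncard < ((G n).degree u : ℝ) := by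
        have h2 : ((G n).neighborFinset v ∩ (G n).neighborFinset u).card ≤ (G n).degree u := by
          rw [← SimpleGraph.card_neighborFinset_eq_degree]
          exact Finset.card_le_card Finset.inter_subset_right
        have h3 : (((G n).neighborFinset v ∩ (G n).neighborFinset u).card : ℝ) ≤
          (G n).degree u := by exact_mod_cast h2
        have h4 := mul_le_mul_of_nonneg_right hεδ (hm n).le
        linarith
      have hdv : ε * (G n).edgeSet.ncard < ((G n).degree v : ℝ) := by
        have h2 : ((G n).neighborFinset v ∩ (G n).neighborFinset u).card ≤ (G n).degree v := by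
          rw [← SimpleGraph.card_neighborFinset_eq_degree]
          exact Finset.card_le_card Finset.inter_subset_left
        have h3 : (((G n).neighborFinset v ∩ (G n).neighborFinset u).card : ℝ) ≤
          (G n).degree v := by exact_mod_cast h2
        have h4 := mul_le_mul_of_nonneg_right hεδ (hm n).le
        linarith
      let L : Finset (V n) := Finset.univ.filter
        (fun v => ε * (G n).edgeSet.ncard < ((G n).degree v : ℝ))
      have hmemL : ∀ x, x ∈ L ↔ ε * (G n).edgeSet.ncard < ((G n).degree x : ℝ) :=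
        fun x => by simp [L]
      let f : V n ≃ Fin (Fintype.card (V n)) := Fintype.equivFin (V n)
      let κ : V n → Fin (Fintype.card (V n)) := fun x => if x = v then f u else f x
      have hκu : κ u = f u := by simp only [κ, if_neg huv]
      have hκv : κ v = f u := by simp only [κ, if_pos]
      have hprop : ∀ x y, (G n).Adj x y → κ x ≠ κ y := by
        intro x y hxy heq
        by_cases hx : x = v <;> by_cases hy : y = v
        · exact hxy.ne (hx.trans hy.symm)
        · simp only [κ, if_pos hx, if_neg hy] at heq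
          have h2 := f.injective heq
          subst hx
          subst h2
          exact hadj hxy.symm
        · simp only [κ, if_neg hx, if_pos hy] at heq
          have h2 := f.injective heq
          subst hy
          subst h2
          exact hadj hxy
        · simp only [κ, if_neg hx, if_neg hy] at heq
          exact hxy.ne (f.injective heq)
      have h2 := hn _ κ (fun x y _ _ hxy => hprop x y hxy)
      have h3 : (∑ i, ({x | ∃ u, ε * (G n).edgeSet.ncard < ((G n).degree u : ℝ) ∧ κ u = i ∧
            (G n).Adj u x}.ncard : ℝ)) +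
            ((G n).neighborFinset v ∩ (G n).neighborFinset u).card ≤
            (G n).edgeSet.ncard + (L.card : ℝ) * L.card := by
        have h4 := (sum_classes_le (G n) L κ u v ((hmemL u).2 hdu) ((hmemL v).2 hdv) huv
          (hκu.trans hκv.symm)).trans (sum_deg_le (G n) L)
        have h5 : ∀ i, {x | ∃ u, ε * (G n).edgeSet.ncard < ((G n).degree u : ℝ) ∧ κ u = i ∧
            (G n).Adj u x}.ncard =
            (Finset.univ.filter (fun x => ∃ w ∈ L, κ w = i ∧ (G n).Adj w x)).card := by
          intro i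
          rw [← Set.ncard_coe_finset]
          congr 1
          ext x
          simp only [Set.mem_ofPred_eq, Finset.coe_filter, Finset.mem_univ, true_and]
          constructor
          · rintro ⟨w, hw, hw2⟩
            exact ⟨w, (hmemL w).2 hw, hw2⟩
          · rintro ⟨w, hw, hw2⟩
            exact ⟨w, (hmemL w).1 hw, hw2⟩
        simp only [h5]
        exact_mod_cast h4
      have hLc : (L.card : ℝ) ≤ 2 / ε := hcard n ε hε
      have hLc2 : (L.card : ℝ) * L.card ≤ 2 / ε * (2 / ε) :=
        mul_le_mul hLc hLc (Nat.cast_nonneg _) (by positivity)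
      have hMm : 4 * (2 / ε * (2 / ε)) / δ < (G n).edgeSet.ncard := by
        refine hM.trans_le ?_
        exact_mod_cast hnM
      rw [div_lt_iff₀ hδ] at hMm
      have h6 : (1 - δ / 4) < (∑ i, ({x | ∃ u, ε * (G n).edgeSet.ncard < ((G n).degree u : ℝ) ∧
          κ u = i ∧ (G n).Adj u x}.ncard : ℝ)) / (G n).edgeSet.ncard + δ / 4 := hn1.trans_le h2
      have h7 : (1 - δ / 2) < (∑ i, ({x | ∃ u, ε * (G n).edgeSet.ncard < ((G n).degree u : ℝ) ∧
          κ u = i ∧ (G n).Adj u x}.ncard : ℝ)) / (G n).edgeSet.ncard := by linarith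
      rw [lt_div_iff₀ (hm n)] at h7
      have := hm n
      nlinarith
    have hlv : ∀ᶠ n in atTop, ∀ u v, u ≠ v → ¬ (G n).Adj u v →
        ((min {x | (G n).degree x = 1 ∧ (G n).Adj u x}.ncard
            {x | (G n).degree x = 1 ∧ (G n).Adj v x}.ncard : ℕ) : ℝ) ≤
          δ * (G n).edgeSet.ncard := by
      obtain ⟨ε₀, hε₀, h⟩ := hcolour4 hinf (δ / 4) (by positivity)
      obtain ⟨ε, hε, hεε, hεδ⟩ : ∃ ε : ℝ, 0 < ε ∧ ε ≤ ε₀ ∧ ε ≤ δ :=
        ⟨min ε₀ δ, lt_min hε₀ hδ, min_le_left _ _, min_le_right _ _⟩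
      obtain ⟨M, hM⟩ := exists_nat_gt (4 * (2 / ε * (2 / ε)) / δ)
      filter_upwards [h ε hε hεε, (tendsto_order.1 h1).1 (1 - δ / 4) (by linarith),
        hinf.eventually_ge_atTop M] with n hn hn1 hnM u v huv hadj
      by_contra hcon
      push Not at hcon
      have hlfeq : ∀ w : V n, {x | (G n).degree x = 1 ∧ (G n).Adj w x}.ncard =
          (Finset.univ.filter (fun x => (G n).degree x = 1 ∧ (G n).Adj w x)).card := by
        intro w
        rw [← Set.ncard_coe_finset]
        congr 1
        ext x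
        simp
      rw [hlfeq, hlfeq] at hcon
      have hlfdeg : ∀ w : V n,
          (Finset.univ.filter (fun x => (G n).degree x = 1 ∧ (G n).Adj w x)).card ≤
          (G n).degree w := by
        intro w
        rw [← SimpleGraph.card_neighborFinset_eq_degree]
        apply Finset.card_le_card
        intro x hx
        rw [Finset.mem_filter] at hx
        rw [SimpleGraph.mem_neighborFinset]
        exact hx.2.2
      have hεm := mul_le_mul_of_nonneg_right hεδ (hm n).le
      have hdu : ε * (G n).edgeSet.ncard < ((G n).degree u : ℝ) := by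
        have h2 := (min_le_left _ _).trans (hlfdeg u) (a := min
          (Finset.univ.filter (fun x => (G n).degree x = 1 ∧ (G n).Adj u x)).card
          (Finset.univ.filter (fun x => (G n).degree x = 1 ∧ (G n).Adj v x)).card)
        have h3 : ((min
          (Finset.univ.filter (fun x => (G n).degree x = 1 ∧ (G n).Adj u x)).card
          (Finset.univ.filter (fun x => (G n).degree x = 1 ∧ (G n).Adj v x)).card : ℕ) : ℝ) ≤
          (G n).degree u := by exact_mod_cast h2
        linarith
      have hdv : ε * (G n).edgeSet.ncard < ((G n).degree v : ℝ) := by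
        have h2 := (min_le_right _ _).trans (hlfdeg v) (a := min
          (Finset.univ.filter (fun x => (G n).degree x = 1 ∧ (G n).Adj u x)).card
          (Finset.univ.filter (fun x => (G n).degree x = 1 ∧ (G n).Adj v x)).card)
        have h3 : ((min
          (Finset.univ.filter (fun x => (G n).degree x = 1 ∧ (G n).Adj u x)).card
          (Finset.univ.filter (fun x => (G n).degree x = 1 ∧ (G n).Adj v x)).card : ℕ) : ℝ) ≤
          (G n).degree v := by exact_mod_cast h2
        linarith
      let L : Finset (V n) := Finset.univ.filter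
        (fun v => ε * (G n).edgeSet.ncard < ((G n).degree v : ℝ))
      have hmemL : ∀ x, x ∈ L ↔ ε * (G n).edgeSet.ncard < ((G n).degree x : ℝ) :=
        fun x => by simp [L]
      let f : V n ≃ Fin (Fintype.card (V n)) := Fintype.equivFin (V n)
      let κ : V n → Fin (Fintype.card (V n)) := fun x => if x = v then f u else f x
      have hκu : κ u = f u := by simp only [κ, if_neg huv]
      have hκv : κ v = f u := by simp only [κ, if_pos]
      have hprop : ∀ x y, (G n).Adj x y → κ x ≠ κ y := by
        intro x y hxy heq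
        by_cases hx : x = v <;> by_cases hy : y = v
        · exact hxy.ne (hx.trans hy.symm)
        · simp only [κ, if_pos hx, if_neg hy] at heq
          have h2 := f.injective heq
          subst hx
          subst h2
          exact hadj hxy.symm
        · simp only [κ, if_neg hx, if_pos hy] at heq
          have h2 := f.injective heq
          subst hy
          subst h2
          exact hadj hxy
        · simp only [κ, if_neg hx, if_neg hy] at heq
          exact hxy.ne (f.injective heq)
      obtain ⟨l, hl1, hl2⟩ := sum_classes_leaf_le (G n) L κ u v ((hmemL u).2 hdu)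
        ((hmemL v).2 hdv) huv (hκu.trans hκv.symm)
      have h2 := hn _ κ l (fun x y _ _ hxy => hprop x y hxy) (fun w hw => by
        rw [hlfeq]
        exact hl1 w ((hmemL w).2 hw))
      have h3 : ((∑ i, ({x | (G n).degree x ≠ 1 ∧
          ∃ u, ε * (G n).edgeSet.ncard < ((G n).degree u : ℝ) ∧ κ u = i ∧
          (G n).Adj u x}.ncard : ℝ)) + ∑ i, (l i : ℝ)) +
            ((min (Finset.univ.filter (fun x => (G n).degree x = 1 ∧ (G n).Adj u x)).card
          (Finset.univ.filter (fun x => (G n).degree x = 1 ∧ (G n).Adj v x)).card : ℕ) : ℝ) ≤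
            (G n).edgeSet.ncard + (L.card : ℝ) * L.card := by
        have h4 := hl2.trans (sum_deg_le (G n) L)
        have h5 : ∀ i, {x | (G n).degree x ≠ 1 ∧
            ∃ u, ε * (G n).edgeSet.ncard < ((G n).degree u : ℝ) ∧ κ u = i ∧
            (G n).Adj u x}.ncard =
            (Finset.univ.filter (fun x => (G n).degree x ≠ 1 ∧
              ∃ w ∈ L, κ w = i ∧ (G n).Adj w x)).card := by
          intro i
          rw [← Set.ncard_coe_finset]
          congr 1
          ext x
          simp only [Set.mem_ofPred_eq, Finset.coe_filter, Finset.mem_univ, true_and]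
          constructor
          · rintro ⟨hx1, w, hw, hw2⟩
            exact ⟨hx1, w, (hmemL w).2 hw, hw2⟩
          · rintro ⟨hx1, w, hw, hw2⟩
            exact ⟨hx1, w, (hmemL w).1 hw, hw2⟩
        simp only [h5]
        exact_mod_cast h4
      have hLc : (L.card : ℝ) ≤ 2 / ε := hcard n ε hε
      have hLc2 : (L.card : ℝ) * L.card ≤ 2 / ε * (2 / ε) :=
        mul_le_mul hLc hLc (Nat.cast_nonneg _) (by positivity)
      have hMm : 4 * (2 / ε * (2 / ε)) / δ < (G n).edgeSet.ncard := by
        refine hM.trans_le ?_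
        exact_mod_cast hnM
      rw [div_lt_iff₀ hδ] at hMm
      have h7 : (1 - δ / 2) < ((∑ i, ({x | (G n).degree x ≠ 1 ∧
          ∃ u, ε * (G n).edgeSet.ncard < ((G n).degree u : ℝ) ∧ κ u = i ∧
          (G n).Adj u x}.ncard : ℝ)) + ∑ i, (l i : ℝ)) / (G n).edgeSet.ncard := by linarith
      rw [lt_div_iff₀ (hm n)] at h7
      have := hm n
      nlinarith
    filter_upwards [hcn, hlv] with n h2 h3 u v huv hadj
    exact ⟨h2 u v huv hadj, h3 u v huv hadj⟩

end Pool.Agent.Results.MP_1cfd87_co.ColourLeafBound
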