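import Pool.Agent.H79.SR.Upper

/-!
# Size Ramsey numbers of a graph versus large matchings: when the limit ratio is one

Question 2 asks for all sequences `(G n)` for which the limit ratios `ρ n` of
`r̂(G n, t K₂) / (t |E(G n)|)` tend to `1`.

* For all sequences in which no edge joins two vertices of large degree (for every `ε > 0` and all
  large `n`, each edge of `G n` has an end of degree at most `ε |E(G n)|`), `ρ n → 1` if and only
  if the quotients maximum degree / number of edges tend to `1`.
* If the second largest degree is `o(|E(G n)|)`, then `ρ n` is asymptotically equal to the quotient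
  maximum degree / number of edges.
* In general, if the quotients tend to `1`, then `ρ n → 1`.
-/

namespace Pool.Agent.Results.MP_1cfd87_co.LimitOne

open SimpleGraph Filter Topology Pool.Agent.Helper539 Pool.Agent.H79.SR

universe u

theorem result (V : ℕ → Type u) [∀ n, Fintype (V n)] (G : ∀ n, SimpleGraph (V n))
    [∀ n, DecidableRel (G n).Adj]
    (hedge : ∀ n, (G n).edgeSet.Nonempty)
    (hiso : ∀ n v, ∃ w, (G n).Adj v w) :
    ∃ ρ : ℕ → ℝ,
      (∀ n, Tendsto (fun t : ℕ =>
        (sizeRamsey (G n) (matchingGraph t) : ℝ) / (t * (G n).edgeSet.ncard))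
        atTop (𝓝 (ρ n))) ∧
      ((∀ ε : ℝ, 0 < ε → ∀ᶠ n in atTop, ∀ u v, (G n).Adj u v →
          min ((G n).degree u : ℝ) ((G n).degree v) ≤ ε * (G n).edgeSet.ncard) →
        (Tendsto ρ atTop (𝓝 1) ↔
          Tendsto (fun n => ((G n).maxDegree : ℝ) / (G n).edgeSet.ncard) atTop (𝓝 1))) ∧
      ((∀ ε : ℝ, 0 < ε → ∀ᶠ n in atTop, ∀ u v, u ≠ v →
          min ((G n).degree u : ℝ) ((G n).degree v) ≤ ε * (G n).edgeSet.ncard) →
        Tendsto (fun n => ρ n - ((G n).maxDegree : ℝ) / (G n).edgeSet.ncard) atTop (𝓝 0)) ∧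
      (Tendsto (fun n => ((G n).maxDegree : ℝ) / (G n).edgeSet.ncard) atTop (𝓝 1) →
        Tendsto ρ atTop (𝓝 1)) := by
  classical
  choose ρ hρ hρ0 hρle using fun n => exists_limit (G n)
  have hm : ∀ n, (0 : ℝ) < (G n).edgeSet.ncard := by
    intro n
    have : 0 < (G n).edgeSet.ncard := (Set.ncard_pos (Set.toFinite _)).2 (hedge n)
    exact_mod_cast this
  have hdeg : ∀ n v, ((G n).neighborSet v).ncard = (G n).degree v := by
    intro n v
    rw [← SimpleGraph.card_neighborFinset_eq_degree, ← Set.ncard_coe_finset]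
    congr 1
    ext w
    simp
  have hlow : ∀ n, ((G n).maxDegree : ℝ) / (G n).edgeSet.ncard ≤ ρ n := by
    intro n
    have hne : Nonempty (V n) := by
      obtain ⟨e, he⟩ := hedge n
      induction e using Sym2.ind with
      | _ a b => exact ⟨a⟩
    obtain ⟨v, hv⟩ := (G n).exists_maximal_degree_vertex
    refine ge_of_tendsto (hρ n) ?_
    filter_upwards [eventually_ge_atTop 1] with t ht
    have h1 : (t : ℝ) * (G n).maxDegree ≤ sizeRamsey (G n) (matchingGraph t) := by
      have := mul_degree_le_sizeRamsey (G n) v t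
      rw [hdeg n v, ← hv] at this
      exact_mod_cast this
    have ht0 : (0 : ℝ) < t := by exact_mod_cast ht
    rw [div_le_div_iff₀ (hm n) (by have := hm n; positivity)]
    have := hm n
    nlinarith
  have hup : ∀ n, ρ n ≤ 1 := by
    intro n
    refine (hρle n 1 one_ne_zero).trans ?_
    have h1 := sizeRamsey_le (arrows_one (G n))
    have h2 : (sizeRamsey (G n) (matchingGraph 1) : ℝ) ≤ (G n).edgeSet.ncard := by
      exact_mod_cast h1
    rw [div_le_iff₀ (by have := hm n; push_cast; positivity)]
    push_cast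
    linarith
  have hbound : ∀ n (c : ℝ) (t : ℕ), 1 ≤ t →
      (sizeRamsey (G n) (matchingGraph t) : ℝ) ≤ t * (c * (G n).edgeSet.ncard) → ρ n ≤ c := by
    intro n c t ht h
    refine (hρle n t (by omega)).trans ?_
    have ht0 : (0 : ℝ) < t := by exact_mod_cast ht
    rw [div_le_iff₀ (by have := hm n; positivity)]
    calc (sizeRamsey (G n) (matchingGraph t) : ℝ) ≤ t * (c * (G n).edgeSet.ncard) := h
      _ = c * (t * (G n).edgeSet.ncard) := by ring
  have hgen : Tendsto (fun n => ((G n).maxDegree : ℝ) / (G n).edgeSet.ncard) atTop (𝓝 1) →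
      Tendsto ρ atTop (𝓝 1) := by
    intro h
    exact tendsto_of_tendsto_of_tendsto_of_le_of_le h tendsto_const_nhds hlow hup
  refine ⟨ρ, hρ, ?_, ?_, hgen⟩
  · intro hmin
    refine ⟨fun h1 => ?_, hgen⟩
    rw [tendsto_order]
    constructor
    · intro c hc
      -- `c < 1`
      obtain ⟨δ, hδ, hδ1, hδc⟩ : ∃ δ : ℝ, 0 < δ ∧ δ ≤ 1 ∧ c ≤ 1 - δ := by
        refine ⟨min (1 - c) 1, lt_min (by linarith) one_pos, min_le_right _ _, ?_⟩
        have := min_le_left (1 - c) 1
        linarith
      obtain ⟨ε, hε, h⟩ := upper_indep.{u} δ hδ hδ1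
      filter_upwards [hmin ε hε, (tendsto_order.1 h1).1 (1 - δ / 8) (by linarith)] with n hn hn2
      by_contra hcon
      push Not at hcon
      obtain ⟨t, ht1, ht⟩ := h (V n) (G n) (hedge n) (hiso n) hn (by
        intro v
        have h2 : ((G n).degree v : ℝ) ≤ (G n).maxDegree := by
          exact_mod_cast (G n).degree_le_maxDegree v
        rw [div_le_iff₀ (hm n)] at hcon
        have h3 : c * ((G n).edgeSet.ncard : ℝ) ≤ (1 - δ) * (G n).edgeSet.ncard :=
          mul_le_mul_of_nonneg_right hδc (hm n).le
        linarith)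
      have := hbound n _ t ht1 ht
      linarith
    · intro c hc
      exact Eventually.of_forall (fun n => ((hlow n).trans (hup n)).trans_lt hc)
  · intro hmin
    rw [tendsto_order]
    constructor
    · intro c hc
      exact Eventually.of_forall (fun n => by have := hlow n; linarith)
    · intro c hc
      obtain ⟨ε, hε, h⟩ := upper_single.{u} (c / 2) (half_pos hc)
      filter_upwards [hmin ε hε] with n hn
      obtain ⟨t, ht1, ht⟩ := h (V n) (G n) (hedge n) (hiso n) hn
      have h1 := hbound n (((G n).maxDegree : ℝ) / (G n).edgeSet.ncard + c / 2) t ht1 (by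
        refine ht.trans (le_of_eq ?_)
        have := (hm n).ne'
        field_simp)
      linarith

end Pool.Agent.Results.MP_1cfd87_co.LimitOne
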