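import Mathlib
import Pool.Graph.R_seed8.Helper539.Basic
import Pool.Agent.H71.CN.Host

/-!
# Graphs whose size Ramsey numbers against matchings are as large as possible

If two adjacent vertices of `G` have `c` common neighbours and one of them has degree at least
`d`, where `d ≥ 120` and `22 c ≤ d`, then every graph `F` with `F → (G, tK₂)` has at least
`t (d + c)` edges.  For the star with `d` leaves, one of which is joined to `c` of the others, this
gives `r̂(G, tK₂) = t |E(G)|` for every `t`, so that `r̂_∞(G) = 1`, although the maximum degree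
may be only `22/23` of the number of edges.
-/

set_option autoImplicit false

namespace Pool.Agent.Results.MP_1cfd87_co.StarWithLeafStar

open Pool.Agent.Helper539 Pool.Agent.H71.CN SimpleGraph Filter Topology

/-- The star with centre `0` and leaves `1, …, d`, together with the edges joining the leaf `1` to
the leaves `2, …, c + 1`. -/
def starPlus (d c : ℕ) : SimpleGraph (Fin (d + 1)) :=
  SimpleGraph.fromRel (fun a b => a.val = 0 ∨ (a.val = 1 ∧ b.val ≤ c + 1))

theorem starPlus_adj {d c : ℕ} (a b : Fin (d + 1)) :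
    (starPlus d c).Adj a b ↔ a ≠ b ∧ ((a.val = 0 ∨ (a.val = 1 ∧ b.val ≤ c + 1)) ∨
      (b.val = 0 ∨ (b.val = 1 ∧ a.val ≤ c + 1))) := by
  rw [starPlus, SimpleGraph.fromRel_adj]

theorem zero_adj {d c : ℕ} (b : Fin (d + 1)) (hb : b.val ≠ 0) :
    (starPlus d c).Adj ⟨0, Nat.succ_pos d⟩ b := by
  rw [starPlus_adj]
  refine ⟨fun h => hb ?_, Or.inl (Or.inl rfl)⟩
  rw [← h]

theorem degree_le {d c : ℕ} (v : Fin (d + 1)) : ((starPlus d c).neighborSet v).ncard ≤ d := by
  have h : (starPlus d c).neighborSet v ⊆ {v}ᶜ := by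
    intro w hw
    rw [Set.mem_compl_iff, Set.mem_singleton_iff]
    have h1 : (starPlus d c).Adj v w := hw
    exact h1.ne'
  have h2 := Set.ncard_le_ncard h (Set.toFinite _)
  have h3 := Set.ncard_add_ncard_compl ({v} : Set (Fin (d + 1)))
  rw [Set.ncard_singleton, Nat.card_fin] at h3
  omega

theorem degree_zero {d c : ℕ} :
    ((starPlus d c).neighborSet ⟨0, Nat.succ_pos d⟩).ncard = d := by
  have h : (starPlus d c).neighborSet ⟨0, Nat.succ_pos d⟩ = {⟨0, Nat.succ_pos d⟩}ᶜ := by
    ext w
    rw [Set.mem_compl_iff, Set.mem_singleton_iff, SimpleGraph.mem_neighborSet]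
    constructor
    · exact fun h => h.ne'
    · intro h
      apply zero_adj
      intro h2
      exact h (Fin.ext h2)
  have h3 := Set.ncard_add_ncard_compl ({⟨0, Nat.succ_pos d⟩} : Set (Fin (d + 1)))
  rw [Set.ncard_singleton, Nat.card_fin] at h3
  rw [h]
  omega

theorem common {d c : ℕ} (h : c + 1 ≤ d) :
    c ≤ ((starPlus d c).commonNeighbors ⟨0, Nat.succ_pos d⟩ ⟨1, by omega⟩).ncard := by
  let f : Fin c → Fin (d + 1) := fun i => ⟨i.val + 2, by omega⟩
  have hf : Function.Injective f := by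
    intro i j hij
    have := congrArg Fin.val hij
    simp only [f] at this
    exact Fin.ext (by omega)
  have h1 : Set.range f ⊆
      (starPlus d c).commonNeighbors ⟨0, Nat.succ_pos d⟩ ⟨1, by omega⟩ := by
    rintro _ ⟨i, rfl⟩
    rw [SimpleGraph.mem_commonNeighbors, starPlus_adj, starPlus_adj]
    refine ⟨⟨?_, Or.inl (Or.inl rfl)⟩, ⟨?_, Or.inl (Or.inr ⟨rfl, ?_⟩)⟩⟩
    · intro h
      have := congrArg Fin.val h
      simp only [f] at this
      omega
    · intro h
      have := congrArg Fin.val h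
      simp only [f] at this
      omega
    · simp only [f]
      omega
  have h2 := Set.ncard_le_ncard h1 (Set.toFinite _)
  rw [← Set.image_univ, Set.ncard_image_of_injective _ hf, Set.ncard_univ, Nat.card_fin] at h2
  exact h2

theorem edges_le {d c : ℕ} (h : c + 1 ≤ d) : (starPlus d c).edgeSet.ncard ≤ d + c := by
  let f : Fin d ⊕ Fin c → Sym2 (Fin (d + 1)) := fun x =>
    match x with
    | Sum.inl i => s(⟨0, Nat.succ_pos d⟩, i.succ)
    | Sum.inr i => s(⟨1, by omega⟩, ⟨i.val + 2, by omega⟩)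
  have h1 : (starPlus d c).edgeSet ⊆ Set.range f := by
    have key : ∀ a b : Fin (d + 1), a ≠ b → (a.val = 0 ∨ (a.val = 1 ∧ b.val ≤ c + 1)) →
        s(a, b) ∈ Set.range f := by
      intro a b hab h1
      have hv : a.val ≠ b.val := fun h => hab (Fin.ext h)
      rcases h1 with h1 | ⟨h1, h2⟩
      · refine ⟨Sum.inl ⟨b.val - 1, by omega⟩, ?_⟩
        have ha : a = ⟨0, Nat.succ_pos d⟩ := Fin.ext h1
        have hb : (⟨b.val - 1, by omega⟩ : Fin d).succ = b := by
          apply Fin.ext
          simp only [Fin.val_succ]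
          omega
        simp only [f]
        rw [hb, ha]
      · by_cases hb0 : b.val = 0
        · refine ⟨Sum.inl ⟨0, by omega⟩, ?_⟩
          have hb : b = ⟨0, Nat.succ_pos d⟩ := Fin.ext hb0
          have ha : (⟨0, by omega⟩ : Fin d).succ = a := by
            apply Fin.ext
            simp only [Fin.val_succ]
            omega
          simp only [f]
          rw [ha, hb, Sym2.eq_swap]
        · refine ⟨Sum.inr ⟨b.val - 2, by omega⟩, ?_⟩
          have ha : (⟨1, by omega⟩ : Fin (d + 1)) = a := Fin.ext h1.symm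
          have hb : (⟨b.val - 2 + 2, by omega⟩ : Fin (d + 1)) = b := by
            apply Fin.ext
            show b.val - 2 + 2 = b.val
            omega
          simp only [f]
          rw [ha, hb]
    intro e
    induction e using Sym2.ind with
    | _ a b =>
      intro he
      rw [SimpleGraph.mem_edgeSet, starPlus_adj] at he
      rcases he with ⟨hab, h1 | h1⟩
      · exact key a b hab h1
      · rw [Sym2.eq_swap]
        exact key b a hab.symm h1
  have h2 := Set.ncard_le_ncard h1 (Set.toFinite _)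
  refine h2.trans ?_
  rw [← Set.image_univ]
  refine (Set.ncard_image_le (Set.toFinite _)).trans ?_
  rw [Set.ncard_univ, Nat.card_eq_fintype_card, Fintype.card_sum, Fintype.card_fin,
    Fintype.card_fin]

theorem connected {d c : ℕ} : (starPlus d c).Connected := by
  rw [SimpleGraph.connected_iff_exists_forall_reachable]
  refine ⟨⟨0, Nat.succ_pos d⟩, fun w => ?_⟩
  by_cases hw : w.val = 0
  · have : w = ⟨0, Nat.succ_pos d⟩ := Fin.ext hw
    rw [this]
  · exact (zero_adj w hw).reachable

/-- the lower bound for `starPlus`. -/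
theorem starPlus_lower {d c : ℕ} (hd : 120 ≤ d) (hcd : 22 * c ≤ d) (t : ℕ) :
    t * (d + c) ≤ sizeRamsey (starPlus d c) (matchingGraph t) := by
  apply le_sizeRamsey (starPlus d c) (v1 := ⟨0, Nat.succ_pos d⟩) (v2 := ⟨1, by omega⟩) _ hd hcd
  · rw [degree_zero]
  · exact common (by omega)
  · apply zero_adj
    exact Nat.one_ne_zero

theorem starPlus_edges {d c : ℕ} (hd : 120 ≤ d) (hcd : 22 * c ≤ d) :
    (starPlus d c).edgeSet.ncard = d + c := by
  apply le_antisymm (edges_le (by omega))
  have h1 := starPlus_lower hd hcd 1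
  have h2 := sizeRamsey_le_mul (starPlus d c) 1
  omega

theorem starPlus_exact {d c : ℕ} (hd : 120 ≤ d) (hcd : 22 * c ≤ d) (t : ℕ) :
    sizeRamsey (starPlus d c) (matchingGraph t) = t * (d + c) := by
  apply le_antisymm _ (starPlus_lower hd hcd t)
  have h2 := sizeRamsey_le_mul (starPlus d c) t
  rwa [starPlus_edges hd hcd] at h2

/-- `IsLimit G ρ`: the number `ρ` is `r̂_∞(G)`, the limit of `r̂(G, tK₂) / (t |E(G)|)`. -/
def IsLimit {V : Type*} (G : SimpleGraph V) (ρ : ℝ) : Prop :=
  Tendsto (fun t : ℕ => (sizeRamsey G (matchingGraph t) : ℝ) / (t * G.edgeSet.ncard))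
    atTop (𝓝 ρ)

theorem isLimit_le_one {V : Type*} [Fintype V] (G : SimpleGraph V) {ρ : ℝ} (h : IsLimit G ρ) :
    ρ ≤ 1 := by
  apply le_of_tendsto' h
  intro t
  apply div_le_one_of_le₀
  · exact_mod_cast sizeRamsey_le_mul G t
  · positivity

theorem le_isLimit {V : Type*} [Fintype V] (G : SimpleGraph V) {ρ : ℝ} (h : IsLimit G ρ)
    {m : ℕ} (hm : ∀ t, t * m ≤ sizeRamsey G (matchingGraph t)) :
    (m : ℝ) / G.edgeSet.ncard ≤ ρ := by
  apply ge_of_tendsto h
  filter_upwards [eventually_ge_atTop 1] with t ht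
  have ht0 : (0 : ℝ) < t := by exact_mod_cast ht
  have h1 : (t : ℝ) * m ≤ sizeRamsey G (matchingGraph t) := by exact_mod_cast hm t
  calc (m : ℝ) / G.edgeSet.ncard = (t * m) / (t * G.edgeSet.ncard) := by
        rw [mul_div_mul_left _ _ ht0.ne']
    _ ≤ _ := div_le_div_of_nonneg_right h1 (by positivity)

theorem result :
    (∀ (V : Type) [Fintype V] (G : SimpleGraph V) (x y : V) (c d : ℕ), G.Adj x y →
      120 ≤ d → 22 * c ≤ d → d ≤ (G.neighborSet x).ncard →
      c ≤ (G.commonNeighbors x y).ncard →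
      ∀ t : ℕ, t * (d + c) ≤ sizeRamsey G (matchingGraph t)) ∧
    (∀ d c : ℕ, 120 ≤ d → 22 * c ≤ d →
      (starPlus d c).Connected ∧ (starPlus d c).edgeSet.ncard = d + c ∧
      (∀ v, ((starPlus d c).neighborSet v).ncard ≤ d) ∧
      (∃ v, ((starPlus d c).neighborSet v).ncard = d) ∧
      (∀ t : ℕ, sizeRamsey (starPlus d c) (matchingGraph t) =
        t * (starPlus d c).edgeSet.ncard) ∧
      IsLimit (starPlus d c) 1) ∧
    (∀ (V : ℕ → Type) [∀ n, Fintype (V n)] (G : ∀ n, SimpleGraph (V n)) (x y : ∀ n, V n)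
      (c d : ℕ → ℕ) (ρ : ℕ → ℝ), (∀ n, (G n).Adj (x n) (y n)) → (∀ n, 120 ≤ d n) →
      (∀ n, 22 * c n ≤ d n) → (∀ n, d n ≤ ((G n).neighborSet (x n)).ncard) →
      (∀ n, c n ≤ ((G n).commonNeighbors (x n) (y n)).ncard) →
      (∀ n, IsLimit (G n) (ρ n)) →
      Tendsto (fun n => (((d n + c n : ℕ) : ℝ)) / (G n).edgeSet.ncard) atTop (𝓝 1) →
      Tendsto ρ atTop (𝓝 1)) := by
  refine ⟨?_, ?_, ?_⟩
  · intro V _ G x y c d hxy hd hcd h1 h2 t
    exact le_sizeRamsey G hxy hd hcd h1 h2 t
  · intro d c hd hcd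
    refine ⟨connected, starPlus_edges hd hcd, degree_le, ⟨_, degree_zero⟩, ?_, ?_⟩
    · intro t
      rw [starPlus_exact hd hcd, starPlus_edges hd hcd]
    · unfold IsLimit
      apply tendsto_const_nhds.congr'
      filter_upwards [eventually_ge_atTop 1] with t ht
      rw [starPlus_exact hd hcd, starPlus_edges hd hcd]
      have ht0 : (0 : ℝ) < t := by exact_mod_cast ht
      have hd0 : (0 : ℝ) < ((d + c : ℕ) : ℝ) := by
        have : 0 < d + c := by omega
        exact_mod_cast this
      rw [Nat.cast_mul, div_self]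
      positivity
  · intro V _ G x y c d ρ hxy hd hcd h1 h2 hρ hlim
    refine tendsto_of_tendsto_of_tendsto_of_le_of_le hlim tendsto_const_nhds ?_ ?_
    · intro n
      exact le_isLimit (G n) (hρ n)
        (fun t => le_sizeRamsey (G n) (hxy n) (hd n) (hcd n) (h1 n) (h2 n) t)
    · intro n
      exact isLimit_le_one (G n) (hρ n)

end Pool.Agent.Results.MP_1cfd87_co.StarWithLeafStar
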